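import Pool.Agent.X51.Girth.Regular

/-!
# MP_8cd00c_co: strong arboricity of graphs of large girth

For every `k ≥ 2` and every `g` there is a graph with arboricity at most `k`, girth at least `g`
and strong arboricity greater than `k`.
-/

open SimpleGraph

namespace Pool.Agent.Results.MP_8cd00c_co.StrongArb

variable {V : Type*}

/-- a colouring of the edges is woody: no cycle is monochromatic -/
def Woody (G : SimpleGraph V) {k : ℕ} (c : G.edgeSet → Fin k) : Prop :=
  ∀ (v : V) (w : G.Walk v v), w.IsCycle →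
    ¬ ∃ i, ∀ e : G.edgeSet, (e : Sym2 V) ∈ w.edges → c e = i

/-- a colouring of the edges is strongly woody: no broken cycle `C - e` is monochromatic -/
def StronglyWoody (G : SimpleGraph V) {k : ℕ} (c : G.edgeSet → Fin k) : Prop :=
  ∀ (v : V) (w : G.Walk v v), w.IsCycle → ∀ e ∈ w.edges,
    ¬ ∃ i, ∀ e' : G.edgeSet, (e' : Sym2 V) ∈ w.edges → (e' : Sym2 V) ≠ e → c e' = i

/-- arboricity -/
noncomputable def arb (G : SimpleGraph V) : ℕ := sInf {k | ∃ c : G.edgeSet → Fin k, Woody G c}

/-- strong arboricity -/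
noncomputable def zeta (G : SimpleGraph V) : ℕ :=
  sInf {k | ∃ c : G.edgeSet → Fin k, StronglyWoody G c}

/-- the graph of the edges of colour `i` -/
def cls (G : SimpleGraph V) {k : ℕ} (C : Sym2 V → Fin k) (i : Fin k) : SimpleGraph V where
  Adj u v := G.Adj u v ∧ C s(u, v) = i
  symm := ⟨fun u v h => ⟨h.1.symm, by rw [Sym2.eq_swap]; exact h.2⟩⟩
  loopless := ⟨fun u h => h.1.ne rfl⟩

theorem cls_adj (G : SimpleGraph V) {k : ℕ} (C : Sym2 V → Fin k) (i : Fin k) (u v : V) :
    (cls G C i).Adj u v ↔ G.Adj u v ∧ C s(u, v) = i := Iff.rfl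

theorem cls_le (G : SimpleGraph V) {k : ℕ} (C : Sym2 V → Fin k) (i : Fin k) : cls G C i ≤ G :=
  fun _ _ h => h.1

theorem mem_cls {G : SimpleGraph V} {k : ℕ} {C : Sym2 V → Fin k} {i : Fin k} {e : Sym2 V} :
    e ∈ (cls G C i).edgeSet ↔ e ∈ G.edgeSet ∧ C e = i := by
  induction e using Sym2.ind with
  | _ a b => exact Iff.rfl

theorem woody_of {G : SimpleGraph V} {k : ℕ} {C : Sym2 V → Fin k}
    (h : ∀ i, (cls G C i).IsAcyclic) : Woody G (fun e => C e) := by
  rintro v w hw ⟨i, hi⟩
  have hmem : ∀ e ∈ w.edges, e ∈ (cls G C i).edgeSet := fun e he =>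
    mem_cls.2 ⟨w.edges_subset_edgeSet he, hi ⟨e, w.edges_subset_edgeSet he⟩ he⟩
  exact h i (w.transfer _ hmem) (hw.transfer hmem)

theorem props_of {G : SimpleGraph V} {k : ℕ} {c : G.edgeSet → Fin k} (hc : StronglyWoody G c)
    {C : Sym2 V → Fin k} (hC : ∀ e : G.edgeSet, C e = c e) :
    (∀ i, (cls G C i).IsAcyclic) ∧
    ∀ x y, G.Adj x y → ∀ i, C s(x, y) ≠ i → ¬ (cls G C i).Reachable x y := by
  constructor
  · intro i v w hw
    have hw' : (w.mapLe (cls_le G C i)).IsCycle := hw.mapLe (cls_le G C i)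
    have hedges : (w.mapLe (cls_le G C i)).edges = w.edges := by simp
    obtain ⟨e, he⟩ : ∃ e, e ∈ (w.mapLe (cls_le G C i)).edges := by
      have h3 := hw'.three_le_length
      have : (w.mapLe (cls_le G C i)).edges ≠ [] := by
        intro h
        rw [← Walk.length_edges, h] at h3
        simp at h3
      exact List.exists_mem_of_ne_nil _ this
    refine hc v _ hw' e he ⟨i, fun e' he' _ => ?_⟩
    rw [← hC]
    rw [hedges] at he'
    exact (mem_cls.1 (w.edges_subset_edgeSet he')).2
  · intro x y hxy i hi hr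
    obtain ⟨p, hp⟩ := hr.symm.exists_isPath
    have hp' : (p.mapLe (cls_le G C i)).IsPath := hp.mapLe (cls_le G C i)
    have hedges : (p.mapLe (cls_le G C i)).edges = p.edges := by simp
    have hnot : s(x, y) ∉ (p.mapLe (cls_le G C i)).edges := by
      rw [hedges]
      intro h
      exact hi (mem_cls.1 (p.edges_subset_edgeSet h)).2
    have hcyc : (Walk.cons hxy (p.mapLe (cls_le G C i))).IsCycle := by
      rw [Walk.cons_isCycle_iff]
      exact ⟨hp', hnot⟩
    refine hc x _ hcyc s(x, y) (by simp) ⟨i, fun e' he' hne => ?_⟩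
    rw [Walk.edges_cons, List.mem_cons] at he'
    rcases he' with h | h
    · exact absurd h hne
    · rw [← hC]
      rw [hedges] at h
      exact (mem_cls.1 (p.edges_subset_edgeSet h)).2

theorem add_edge {G : SimpleGraph V} {u v : V} (huv : u ≠ v) (hn : ¬ G.Adj u v) {k : ℕ}
    (hk : 2 ≤ k) {C : Sym2 V → Fin k} (hac : ∀ i, (cls G C i).IsAcyclic)
    (hnr : ∀ x y, G.Adj x y → ∀ i, C s(x, y) ≠ i → ¬ (cls G C i).Reachable x y) :
    ∃ C' : Sym2 V → Fin k, ∀ i, (cls (G ⊔ edge u v) C' i).IsAcyclic := by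
  classical
  have hG' : ∀ a b, (G ⊔ edge u v).Adj a b → G.Adj a b ∨ s(a, b) = s(u, v) := by
    intro a b h
    rw [sup_adj, edge_adj] at h
    rcases h with h | ⟨h, -⟩
    · exact Or.inl h
    · right
      rcases h with ⟨rfl, rfl⟩ | ⟨rfl, rfl⟩
      · rfl
      · exact Sym2.eq_swap
  have hedge : ∀ x y a b : V, x ≠ y → s(a, b) = s(x, y) → (edge x y).Adj a b := by
    intro x y a b hxy h
    rw [edge_adj]
    rw [Sym2.eq_iff] at h
    rcases h with ⟨rfl, rfl⟩ | ⟨rfl, rfl⟩
    · exact ⟨Or.inl ⟨rfl, rfl⟩, hxy⟩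
    · exact ⟨Or.inr ⟨rfl, rfl⟩, hxy.symm⟩
  -- a colour in which `u` and `v` are not connected
  have easy : ∀ j : Fin k, ¬ (cls G C j).Reachable u v →
      ∃ C' : Sym2 V → Fin k, ∀ i, (cls (G ⊔ edge u v) C' i).IsAcyclic := by
    intro j hj
    refine ⟨Function.update C s(u, v) j, fun i => ?_⟩
    by_cases hij : i = j
    · subst hij
      refine IsAcyclic.anti ?_ (IsAcyclic.sup_edge_of_not_reachable hj (hac i))
      rintro a b ⟨hab, hc⟩
      rw [sup_adj]
      by_cases he : s(a, b) = s(u, v)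
      · right
        exact hedge u v a b huv he
      · left
        rw [Function.update_of_ne he] at hc
        exact ⟨(hG' a b hab).resolve_right he, hc⟩
    · refine IsAcyclic.anti ?_ (hac i)
      rintro a b ⟨hab, hc⟩
      by_cases he : s(a, b) = s(u, v)
      · rw [he, Function.update_self] at hc
        exact absurd hc.symm hij
      · rw [Function.update_of_ne he] at hc
        exact ⟨(hG' a b hab).resolve_right he, hc⟩
  set i0 : Fin k := ⟨0, by omega⟩ with hi0
  set i1 : Fin k := ⟨1, by omega⟩ with hi1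
  have h01 : i0 ≠ i1 := by
    intro h
    have := congrArg Fin.val h
    simp [hi0, hi1] at this
  by_cases h0 : (cls G C i0).Reachable u v
  swap
  · exact easy i0 h0
  obtain ⟨p, hp⟩ := h0.exists_isPath
  cases p with
  | nil => exact absurd rfl huv
  | @cons _ x _ h q =>
    rw [Walk.cons_isPath_iff] at hp
    have hux : u ≠ x := h.1.ne
    have hne : s(u, x) ≠ s(u, v) := by
      intro he
      rw [Sym2.eq_iff] at he
      rcases he with ⟨-, rfl⟩ | ⟨rfl, -⟩
      · exact hn h.1
      · exact huv rfl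
    have hr1 : ¬ (cls G C i1).Reachable u x := hnr u x h.1 i1 (by rw [h.2]; exact h01)
    set D := (cls G C i0).deleteEdges {s(u, x)} with hD
    have hDac : D.IsAcyclic := IsAcyclic.anti (deleteEdges_le _) (hac i0)
    have hDr : ¬ D.Reachable u v := by
      intro hr
      have hbr := isAcyclic_iff_forall_isBridge.1 (hac i0) ((mem_edgeSet _).2 h)
      rw [isBridge_iff] at hbr
      apply hbr
      have hq : s(u, x) ∉ q.edges := fun he => hp.2 (q.fst_mem_support_of_mem_edges he)
      exact hr.trans (Walk.reachable (q.toDeleteEdge _ hq)).symm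
    refine ⟨Function.update (Function.update C s(u, x) i1) s(u, v) i0, fun i => ?_⟩
    by_cases hi : i = i0
    · refine IsAcyclic.anti ?_ (IsAcyclic.sup_edge_of_not_reachable hDr hDac)
      rintro a b ⟨hab, hc⟩
      rw [sup_adj]
      by_cases he : s(a, b) = s(u, v)
      · right
        exact hedge u v a b huv he
      · left
        rw [Function.update_of_ne he] at hc
        have he2 : s(a, b) ≠ s(u, x) := by
          intro he2
          rw [he2, Function.update_self] at hc
          exact h01 (by rw [← hi, hc])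
        rw [Function.update_of_ne he2] at hc
        rw [hD, deleteEdges_adj]
        refine ⟨⟨(hG' a b hab).resolve_right he, ?_⟩, by simpa using he2⟩
        rw [hc, hi]
    by_cases hi' : i = i1
    · refine IsAcyclic.anti ?_ (IsAcyclic.sup_edge_of_not_reachable hr1 (hac i1))
      rintro a b ⟨hab, hc⟩
      rw [sup_adj]
      by_cases he : s(a, b) = s(u, v)
      · rw [he, Function.update_self] at hc
        exact absurd hc.symm hi
      rw [Function.update_of_ne he] at hc
      by_cases he2 : s(a, b) = s(u, x)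
      · right
        exact hedge u x a b hux he2
      · left
        rw [Function.update_of_ne he2] at hc
        exact ⟨(hG' a b hab).resolve_right he, by rw [hc, hi']⟩
    · refine IsAcyclic.anti ?_ (hac i)
      rintro a b ⟨hab, hc⟩
      by_cases he : s(a, b) = s(u, v)
      · rw [he, Function.update_self] at hc
        exact absurd hc.symm hi
      rw [Function.update_of_ne he] at hc
      by_cases he2 : s(a, b) = s(u, x)
      · rw [he2, Function.update_self] at hc
        exact absurd hc.symm hi'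
      · rw [Function.update_of_ne he2] at hc
        exact ⟨(hG' a b hab).resolve_right he, hc⟩

/-- a forest on `n ≥ 1` vertices has at most `n - 1` edges -/
theorem forest_card {n : ℕ} (hn : 0 < n) (F : SimpleGraph (Fin n)) (hF : F.IsAcyclic) :
    Nat.card F.edgeSet + 1 ≤ n := by
  classical
  have : Nonempty (Fin n) := ⟨⟨0, hn⟩⟩
  obtain ⟨T, hFT, -, hT⟩ := connected_top.exists_isTree_le_of_le_of_isAcyclic
    (le_top : F ≤ ⊤) hF
  have h1 : Nat.card F.edgeSet ≤ Nat.card T.edgeSet :=
    Nat.card_mono (Set.toFinite _) (edgeSet_subset_edgeSet.2 hFT)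
  have h2 := hT.card_edgeFinset
  rw [Fintype.card_fin] at h2
  have h3 : Nat.card T.edgeSet = T.edgeFinset.card := by
    rw [Nat.card_eq_fintype_card, ← edgeFinset_card]
  omega

/-- a graph with at least `k n` edges is not the union of `k` forests -/
theorem not_union {n k : ℕ} (hn : 0 < n) (hk : 0 < k) (H : SimpleGraph (Fin n))
    (hH : k * n ≤ Nat.card H.edgeSet) (C : Sym2 (Fin n) → Fin k) :
    ¬ ∀ i, (cls H C i).IsAcyclic := by
  classical
  intro h
  have h1 : Nat.card H.edgeSet ≤ ∑ i, Nat.card (cls H C i).edgeSet := by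
    have e1 : Nat.card H.edgeSet = H.edgeFinset.card := by
      rw [Nat.card_eq_fintype_card, ← edgeFinset_card]
    have e2 : ∀ i, Nat.card (cls H C i).edgeSet = (cls H C i).edgeFinset.card := by
      intro i
      rw [Nat.card_eq_fintype_card, ← edgeFinset_card]
    rw [e1, Finset.sum_congr rfl fun i _ => e2 i]
    refine (Finset.card_le_card (t := Finset.univ.biUnion fun i => (cls H C i).edgeFinset) ?_).trans
      Finset.card_biUnion_le
    intro e he
    rw [Finset.mem_biUnion]
    refine ⟨C e, Finset.mem_univ _, ?_⟩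
    rw [mem_edgeFinset] at he ⊢
    exact mem_cls.2 ⟨he, rfl⟩
  have h2 : ∑ i, (Nat.card (cls H C i).edgeSet + 1) ≤ ∑ _i : Fin k, n :=
    Finset.sum_le_sum fun i _ => forest_card hn _ (h i)
  rw [Finset.sum_add_distrib] at h2
  simp only [Finset.sum_const, Finset.card_univ, Fintype.card_fin, smul_eq_mul, mul_one] at h2
  omega

/-- dense graphs of large girth -/
theorem exists_dense (k g : ℕ) : ∃ (n : ℕ) (H : SimpleGraph (Fin n)), 0 < n ∧
    k * n ≤ Nat.card H.edgeSet ∧
    ∀ (v : Fin n) (w : H.Walk v v), w.IsCycle → g < w.length := by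
  classical
  obtain ⟨n, H, hn, hdeg, hg⟩ := Pool.Agent.X51.Girth.reg_girth (2 * k) g
  refine ⟨n, H, hn, ?_, hg⟩
  have h1 := H.sum_degrees_eq_twice_card_edges
  have h2 : ∀ v, H.degree v = 2 * k := by
    intro v
    rw [← hdeg v, Set.ncard_eq_toFinset_card', ← card_neighborFinset_eq_degree]
    rfl
  rw [Finset.sum_congr rfl fun v _ => h2 v] at h1
  simp only [Finset.sum_const, Finset.card_univ, Fintype.card_fin, smul_eq_mul] at h1
  have e1 : Nat.card H.edgeSet = H.edgeFinset.card := by
    rw [Nat.card_eq_fintype_card, ← edgeFinset_card]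
  rw [e1]
  nlinarith

/-- there are strongly woody colourings (all edges of different colours) -/
theorem exists_stronglyWoody {n : ℕ} (G : SimpleGraph (Fin n)) :
    ∃ k, ∃ c : G.edgeSet → Fin k, StronglyWoody G c := by
  classical
  refine ⟨Fintype.card G.edgeSet, Fintype.equivFin G.edgeSet, ?_⟩
  rintro v w hw e he ⟨i, hi⟩
  have h3 : 3 ≤ w.edges.toFinset.card := by
    rw [List.toFinset_card_of_nodup hw.isTrail.edges_nodup, Walk.length_edges]
    exact hw.three_le_length
  have h2 : 1 < (w.edges.toFinset.erase e).card := by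
    rw [Finset.card_erase_of_mem (by simpa using he)]
    omega
  obtain ⟨a, ha, b, hb, hab⟩ := Finset.one_lt_card.1 h2
  rw [Finset.mem_erase, List.mem_toFinset] at ha hb
  have h4 := hi ⟨a, w.edges_subset_edgeSet ha.2⟩ ha.2 ha.1
  have h5 := hi ⟨b, w.edges_subset_edgeSet hb.2⟩ hb.2 hb.1
  have := (Fintype.equivFin G.edgeSet).injective (h4.trans h5.symm)
  exact hab (congrArg Subtype.val this)

theorem main (k g : ℕ) (hk : 2 ≤ k) : ∃ (n : ℕ) (G : SimpleGraph (Fin n)),
    arb G ≤ k ∧ (g : ℕ∞) ≤ G.egirth ∧ k < zeta G := by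
  classical
  obtain ⟨n, H, hn, hH, hg⟩ := exists_dense k g
  set Bad : Set (SimpleGraph (Fin n)) :=
    {K | K ≤ H ∧ ¬ ∃ C : Sym2 (Fin n) → Fin k, ∀ i, (cls K C i).IsAcyclic} with hBad
  have hne : Bad.Nonempty := ⟨H, le_rfl, fun ⟨C, hC⟩ => not_union hn (by omega) H hH C hC⟩
  obtain ⟨K, hKmin⟩ := (Set.toFinite Bad).exists_minimal hne
  obtain ⟨hKH, hKbad⟩ : K ≤ H ∧ ¬ ∃ C : Sym2 (Fin n) → Fin k, ∀ i, (cls K C i).IsAcyclic :=
    hKmin.prop
  have hKe : ∃ u v, K.Adj u v := by
    by_contra hcon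
    push Not at hcon
    refine hKbad ⟨fun _ => ⟨0, by omega⟩, fun i => IsAcyclic.anti ?_ isAcyclic_bot⟩
    rintro a b ⟨hab, -⟩
    exact absurd hab (hcon a b)
  obtain ⟨u, v, huv⟩ := hKe
  set G := K.deleteEdges {s(u, v)} with hG
  have hGK : G ≤ K := deleteEdges_le _
  have hnadj : ¬ G.Adj u v := by
    rw [hG, deleteEdges_adj]
    simp
  have hGne : ¬ K ≤ G := fun h => hnadj (h huv)
  have hgood : ∃ C : Sym2 (Fin n) → Fin k, ∀ i, (cls G C i).IsAcyclic := by
    by_contra hcon
    exact hGne (hKmin.le_of_le ⟨hGK.trans hKH, hcon⟩ hGK)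
  have hKG : K ≤ G ⊔ edge u v := by
    intro a b hab
    rw [sup_adj]
    by_cases he : s(a, b) = s(u, v)
    · right
      rw [edge_adj]
      rw [Sym2.eq_iff] at he
      rcases he with ⟨rfl, rfl⟩ | ⟨rfl, rfl⟩
      · exact ⟨Or.inl ⟨rfl, rfl⟩, hab.ne⟩
      · exact ⟨Or.inr ⟨rfl, rfl⟩, hab.ne⟩
    · left
      rw [hG, deleteEdges_adj]
      exact ⟨hab, by simpa using he⟩
  refine ⟨n, G, ?_, ?_, ?_⟩
  · obtain ⟨C, hC⟩ := hgood
    exact Nat.sInf_le ⟨_, woody_of hC⟩
  · rw [le_egirth]
    intro a w hw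
    have h1 := hg a (w.mapLe (hGK.trans hKH)) (hw.mapLe _)
    have h2 : (w.mapLe (hGK.trans hKH)).length = w.length := by simp
    rw [h2] at h1
    exact_mod_cast h1.le
  · by_contra hcon
    push Not at hcon
    obtain ⟨c, hc⟩ : ∃ c : G.edgeSet → Fin (zeta G), StronglyWoody G c :=
      Nat.sInf_mem (s := {k | ∃ c : G.edgeSet → Fin k, StronglyWoody G c}) (exists_stronglyWoody G)
    -- as a colouring with `k` colours
    have hc' : StronglyWoody G (fun e => Fin.castLE hcon (c e)) := by
      rintro a w hw e he ⟨i, hi⟩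
      have h3 : 3 ≤ w.edges.toFinset.card := by
        rw [List.toFinset_card_of_nodup hw.isTrail.edges_nodup, Walk.length_edges]
        exact hw.three_le_length
      have h2 : 1 < (w.edges.toFinset.erase e).card := by
        rw [Finset.card_erase_of_mem (by simpa using he)]
        omega
      obtain ⟨a', ha, -⟩ := Finset.one_lt_card.1 h2
      rw [Finset.mem_erase, List.mem_toFinset] at ha
      refine hc a w hw e he ⟨c ⟨a', w.edges_subset_edgeSet ha.2⟩, fun e' he' hne => ?_⟩
      have h4 := (hi e' he' hne).trans (hi ⟨a', w.edges_subset_edgeSet ha.2⟩ ha.2 ha.1).symm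
      exact Fin.castLE_injective hcon h4
    obtain ⟨hac, hnr⟩ := props_of hc'
      (C := fun e => if h : e ∈ G.edgeSet then Fin.castLE hcon (c ⟨e, h⟩) else ⟨0, by omega⟩)
      (fun e => by simp [e.2])
    obtain ⟨C', hC'⟩ := add_edge huv.ne hnadj hk hac hnr
    refine hKbad ⟨C', fun i => IsAcyclic.anti ?_ (hC' i)⟩
    rintro a b ⟨hab, h⟩
    exact ⟨hKG hab, h⟩

/-- if the arboricity is at most `1`, it is equal to the strong arboricity -/
theorem easy {n : ℕ} (G : SimpleGraph (Fin n)) (h : arb G ≤ 1) : zeta G = arb G := by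
  classical
  have hne : {k | ∃ c : G.edgeSet → Fin k, Woody G c}.Nonempty := by
    obtain ⟨k, c, hc⟩ := exists_stronglyWoody G
    refine ⟨k, c, ?_⟩
    rintro v w hw ⟨i, hi⟩
    obtain ⟨e, he⟩ : ∃ e, e ∈ w.edges := by
      have h3 := hw.three_le_length
      have : w.edges ≠ [] := by
        intro h
        rw [← Walk.length_edges, h] at h3
        simp at h3
      exact List.exists_mem_of_ne_nil _ this
    exact hc v w hw e he ⟨i, fun e' he' _ => hi e' he'⟩
  obtain ⟨c, hc⟩ : ∃ c : G.edgeSet → Fin (arb G), Woody G c := Nat.sInf_mem hne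
  have hnc : ∀ (v : Fin n) (w : G.Walk v v), ¬ w.IsCycle := by
    intro v w hw
    obtain ⟨e, he⟩ : ∃ e, e ∈ w.edges := by
      have h3 := hw.three_le_length
      have : w.edges ≠ [] := by
        intro h
        rw [← Walk.length_edges, h] at h3
        simp at h3
      exact List.exists_mem_of_ne_nil _ this
    have : Subsingleton (Fin (arb G)) := by
      rw [Fin.subsingleton_iff_le_one]
      exact h
    exact hc v w hw ⟨c ⟨e, w.edges_subset_edgeSet he⟩, fun e' _ => Subsingleton.elim _ _⟩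
  unfold zeta arb
  congr 1
  ext k
  constructor
  · rintro ⟨c, -⟩
    exact ⟨c, fun v w hw => absurd hw (hnc v w)⟩
  · rintro ⟨c, -⟩
    exact ⟨c, fun v w hw => absurd hw (hnc v w)⟩

/-- For every `k ≥ 2` and every `g` there is a finite graph `G` with `arb G ≤ k`, girth at least `g`
and `ζ(G) > k`. Hence large girth forces `ζ(G) = arb(G)` for the graphs with `arb(G) ≤ k` only if
`k ≤ 1`. -/
theorem result :
    (∀ k g : ℕ, 2 ≤ k → ∃ (n : ℕ) (G : SimpleGraph (Fin n)),
      arb G ≤ k ∧ (g : ℕ∞) ≤ G.egirth ∧ k < zeta G) ∧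
    ∀ k : ℕ, (∃ g : ℕ, ∀ (n : ℕ) (G : SimpleGraph (Fin n)), arb G ≤ k → (g : ℕ∞) ≤ G.egirth →
      zeta G = arb G) ↔ k ≤ 1 := by
  refine ⟨fun k g hk => main k g hk, fun k => ⟨fun ⟨g, hg⟩ => ?_, fun hk => ?_⟩⟩
  · by_contra hcon
    push Not at hcon
    obtain ⟨n, G, h1, h2, h3⟩ := main k g hcon
    have := hg n G h1 h2
    omega
  · exact ⟨0, fun n G h _ => easy G (h.trans hk)⟩

end Pool.Agent.Results.MP_8cd00c_co.StrongArb
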